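import Pool.Agent.Lib_helper99.PG.Pow2

/-!
# The number of cyclotomic eigenvalues depends only on the residues
-/

set_option autoImplicit false

namespace Pool.Agent.PG

open NumberField Topology Polynomial
open Pool.Agent.TT Pool.Agent.TB Pool.Agent.TF Pool.Agent.RF Pool.Agent.TBL Pool.Agent.TU
open Pool.Agent.KT Pool.Agent.KP Pool.Agent.EFF

section poly

theorem pgr_sub {C : Type} [NormedField C] [IsUltrametricDist C] (x y : C) :
    ‖x - y‖ ≤ max ‖x‖ ‖y‖ := by
  rw [sub_eq_add_neg]
  refine (IsUltrametricDist.norm_add_le_max _ _).trans ?_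
  rw [norm_neg]

/-- A root of a monic polynomial with integral coefficients is integral. -/
theorem pgr_root {C : Type} [NormedField C] [IsUltrametricDist C] {F : C[X]} (hF : F.Monic)
    (hF1 : ∀ l, ‖F.coeff l‖ ≤ 1) {x : C} (hx : F.eval x = 0) : ‖x‖ ≤ 1 := by
  by_contra hno
  rw [not_le] at hno
  set d := F.natDegree with hd
  have hd0 : 0 < d := by
    rcases Nat.eq_zero_or_pos d with h | h
    · exfalso
      have h1 : F = 1 := hF.natDegree_eq_zero.mp (hd ▸ h)
      rw [h1, eval_one] at hx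
      exact one_ne_zero hx
    · exact h
  rw [eval_eq_sum_range, ← hd, Finset.sum_range_succ] at hx
  have hlead : F.coeff d = 1 := hF.coeff_natDegree
  rw [hlead, one_mul] at hx
  have h2 : ‖x ^ d‖ = ‖∑ l ∈ Finset.range d, F.coeff l * x ^ l‖ := by
    rw [eq_neg_of_add_eq_zero_right hx, norm_neg]
  have h3 : ‖∑ l ∈ Finset.range d, F.coeff l * x ^ l‖ ≤ ‖x‖ ^ (d - 1) := by
    refine IsUltrametricDist.norm_sum_le_of_forall_le_of_nonneg (by positivity) fun l hl => ?_
    rw [norm_mul, norm_pow]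
    calc ‖F.coeff l‖ * ‖x‖ ^ l ≤ 1 * ‖x‖ ^ (d - 1) :=
          mul_le_mul (hF1 l) (pow_le_pow_right₀ hno.le
            (by rw [Finset.mem_range] at hl; omega)) (by positivity) zero_le_one
      _ = ‖x‖ ^ (d - 1) := one_mul _
  rw [← h2, norm_pow] at h3
  have h4 : ‖x‖ ^ (d - 1) < ‖x‖ ^ d := pow_lt_pow_right₀ hno (by omega)
  exact absurd h3 (not_le.mpr h4)

end poly

section redd

variable {p : ℕ} [hp : Fact p.Prime] {k : Type} [Field k]

/-- Two families with polynomials that are congruent modulo the maximal ideal. -/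
theorem pgr_red (red : nv ℂ_[p] →+* k) (hred : ∀ x : nv ℂ_[p], ‖(x : ℂ_[p])‖ < 1 → red x = 0)
    {J : ℕ} (a b : Fin J → nv ℂ_[p])
    (h : ∀ l, ‖(∏ i, (X - C (a i : ℂ_[p]))).coeff l - (∏ i, (X - C (b i : ℂ_[p]))).coeff l‖ < 1) :
    Finset.univ.val.map (fun i => red (a i)) = Finset.univ.val.map (fun i => red (b i)) := by
  have h1 : ∀ c : Fin J → nv ℂ_[p],
      (∏ i, (X - C (c i : ℂ_[p]))) = (∏ i, (X - C (c i))).map (nv ℂ_[p]).subtype := by
    intro c
    rw [Polynomial.map_prod]
    apply Finset.prod_congr rfl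
    intro i _
    rw [Polynomial.map_sub, Polynomial.map_X, Polynomial.map_C]
    rfl
  have h2 : (∏ i, (X - C (a i))).map red = (∏ i, (X - C (b i))).map red := by
    ext l
    rw [Polynomial.coeff_map, Polynomial.coeff_map]
    apply red_eq red hred
    have h3 := h l
    rw [h1 a, h1 b, Polynomial.coeff_map, Polynomial.coeff_map] at h3
    exact h3
  rw [Polynomial.map_prod, Polynomial.map_prod] at h2
  simp only [Polynomial.map_sub, Polynomial.map_X, Polynomial.map_C] at h2
  have h3 := congrArg Polynomial.roots h2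
  rw [Polynomial.roots_prod _ _ (Finset.prod_ne_zero_iff.mpr fun i _ => X_sub_C_ne_zero _),
    Polynomial.roots_prod _ _ (Finset.prod_ne_zero_iff.mpr fun i _ => X_sub_C_ne_zero _)] at h3
  simp only [Polynomial.roots_X_sub_C] at h3
  rw [Multiset.bind_singleton, Multiset.bind_singleton] at h3
  exact h3

end redd

section res

variable {p : ℕ} [hp : Fact p.Prime] {k : Type} [Field k]

/-- The property of the residue of an eigenvalue; `T` is the multiset of all residues. -/
def CycRes (T : Multiset k) (m : ℕ) (z : k) : Prop :=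
  ∃ M : ℕ, 0 < M ∧ z ^ M = 1 ∧ ∀ j : ℕ, j.Coprime M → j % m = 1 % m → z ^ j ∈ T

open Classical in
/-- The number of cyclotomic eigenvalues in terms of the residues. -/
theorem cycEig_red (red : nv ℂ_[p] →+* k)
    (hred : ∀ x : nv ℂ_[p], ‖(x : ℂ_[p])‖ < 1 → red x = 0) {d : ℕ}
    (A : Matrix (Fin d) (Fin d) ℂ_[p]) (a : Fin d → nv ℂ_[p])
    (ha : Finset.univ.val.map (fun i => (a i : ℂ_[p])) = A.charpoly.roots) (m : ℕ) :
    cycEig A m = (Finset.univ.val.map fun i => red (a i)).countP
      (CycRes (Finset.univ.val.map fun i => red (a i)) m) := by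
  have h1 : ∀ (x y : nv ℂ_[p]), ‖(x : ℂ_[p]) - (y : ℂ_[p])‖ < 1 ↔ red x = red y := by
    intro x y
    have h2 := red_zero_iff red hred (x - y)
    rw [map_sub, sub_eq_zero] at h2
    exact h2.symm
  rw [cycEig_family A ha, Multiset.countP_map, Finset.card_def, Finset.filter_val]
  congr 1
  apply Multiset.filter_congr
  intro i _
  constructor
  · rintro ⟨M, hM, h2, h3⟩
    refine ⟨M, hM, ?_, fun j hj hjm => ?_⟩
    · have h4 := (h1 (a i ^ M) 1).mp h2
      rwa [map_pow, map_one] at h4
    · obtain ⟨i', h4⟩ := h3 j hj hjm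
      have h5 := (h1 (a i ^ j) (a i')).mp h4
      rw [map_pow] at h5
      exact Multiset.mem_map.mpr ⟨i', Finset.mem_univ_val i', h5.symm⟩
  · rintro ⟨M, hM, h2, h3⟩
    refine ⟨M, hM, ?_, fun j hj hjm => ?_⟩
    · refine (h1 (a i ^ M) 1).mpr ?_
      rw [map_pow, map_one]
      exact h2
    · obtain ⟨i', -, h4⟩ := Multiset.mem_map.mp (h3 j hj hjm)
      refine ⟨i', (h1 (a i ^ j) (a i')).mpr ?_⟩
      rw [map_pow]
      exact h4.symm

end res

section congr

variable {p : ℕ} [hp : Fact p.Prime]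

/-- Matrices with characteristic polynomials that are congruent modulo the maximal ideal have the
same number of cyclotomic eigenvalues. -/
theorem cycEig_congr_charpoly {d : ℕ} (A B : Matrix (Fin d) (Fin d) ℂ_[p])
    (hA : ∀ l, ‖A.charpoly.coeff l‖ ≤ 1)
    (h : ∀ l, ‖A.charpoly.coeff l - B.charpoly.coeff l‖ < 1) (m : ℕ) :
    cycEig A m = cycEig B m := by
  classical
  have hB : ∀ l, ‖B.charpoly.coeff l‖ ≤ 1 := by
    intro l
    have h1 : B.charpoly.coeff l = A.charpoly.coeff l - (A.charpoly.coeff l - B.charpoly.coeff l) := by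
      ring
    rw [h1]
    exact (pgr_sub _ _).trans (max_le (hA l) (h l).le)
  obtain ⟨α, hα⟩ := effn_family A
  obtain ⟨β, hβ⟩ := effn_family B
  have hmem : ∀ (M : Matrix (Fin d) (Fin d) ℂ_[p]) (γ : Fin d → ℂ_[p]),
      Finset.univ.val.map γ = M.charpoly.roots → (∀ l, ‖M.charpoly.coeff l‖ ≤ 1) →
      ∀ i, ‖γ i‖ ≤ 1 := by
    intro M γ hγ hM i
    refine pgr_root M.charpoly_monic hM ?_
    have h1 : γ i ∈ M.charpoly.roots := by
      rw [← hγ]
      exact Multiset.mem_map_of_mem _ (Finset.mem_univ_val i)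
    exact (Polynomial.mem_roots'.mp h1).2
  let a : Fin d → nv ℂ_[p] := fun i => ⟨α i, hmem A α hα hA i⟩
  let b : Fin d → nv ℂ_[p] := fun i => ⟨β i, hmem B β hβ hB i⟩
  obtain ⟨red, hred, -⟩ := res_exists p (AlgebraicClosure (ZMod p))
  have hab : Finset.univ.val.map (fun i => red (a i)) =
      Finset.univ.val.map (fun i => red (b i)) := by
    apply pgr_red red hred
    intro l
    show ‖(∏ i, (X - Polynomial.C (α i))).coeff l - (∏ i, (X - Polynomial.C (β i))).coeff l‖ < 1
    rw [← pgd_charpoly A hα, ← pgd_charpoly B hβ]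
    exact h l
  rw [cycEig_red red hred A a hα, cycEig_red red hred B b hβ, hab]

/-- Matrices that are congruent modulo the maximal ideal have the same number of cyclotomic
eigenvalues. -/
theorem cycEig_congr {d : ℕ} (A B : Matrix (Fin d) (Fin d) ℂ_[p]) (hA : ∀ i j, ‖A i j‖ ≤ 1)
    (h : ∀ i j, ‖A i j - B i j‖ < 1) (m : ℕ) : cycEig A m = cycEig B m := by
  have hB : ∀ i j, ‖B i j‖ ≤ 1 := by
    intro i j
    have h1 : B i j = A i j - (A i j - B i j) := by ring
    rw [h1]
    exact (pgr_sub _ _).trans (max_le (hA i j) (h i j).le)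
  obtain ⟨red, hred, -⟩ := res_exists p (AlgebraicClosure (ZMod p))
  let A' : Matrix (Fin d) (Fin d) (nv ℂ_[p]) := fun i j => ⟨A i j, hA i j⟩
  let B' : Matrix (Fin d) (Fin d) (nv ℂ_[p]) := fun i j => ⟨B i j, hB i j⟩
  have hA' : A.charpoly = A'.charpoly.map (nv ℂ_[p]).subtype := by
    rw [← Matrix.charpoly_map]
    rfl
  have hB' : B.charpoly = B'.charpoly.map (nv ℂ_[p]).subtype := by
    rw [← Matrix.charpoly_map]
    rfl
  have hAB : A'.charpoly.map red = B'.charpoly.map red := by
    rw [← Matrix.charpoly_map, ← Matrix.charpoly_map]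
    congr 1
    ext i j
    exact red_eq red hred (A' i j) (B' i j) (h i j)
  refine cycEig_congr_charpoly A B (fun l => ?_) (fun l => ?_) m
  · rw [hA', Polynomial.coeff_map]
    exact (A'.charpoly.coeff l).2
  · have h1 : red (A'.charpoly.coeff l - B'.charpoly.coeff l) = 0 := by
      rw [map_sub, ← Polynomial.coeff_map, ← Polynomial.coeff_map, hAB, sub_self]
    have h2 := (red_zero_iff red hred _).mp h1
    rw [hA', hB', Polynomial.coeff_map, Polynomial.coeff_map]
    exact h2

end congr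

end Pool.Agent.PG
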