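import Pool.Agent.Lib_helper19.EFF.Nb
import Pool.Agent.Lib_helper89.APM.Step
import Pool.Agent.Lib_helper16.KP.Resid

/-!
# From the ground field to a finite extension
-/

set_option autoImplicit false

namespace Pool.Agent.PG

open NumberField Topology Polynomial
open Pool.Agent.TT Pool.Agent.TB Pool.Agent.TF Pool.Agent.RF Pool.Agent.TBL Pool.Agent.TU
open Pool.Agent.KT Pool.Agent.KP Pool.Agent.EFF

section down

variable {K L : Type} [Field K] [Field L] [Algebra K L] [Algebra K Qbar] [Algebra L Qbar]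
  [IsScalarTower K L Qbar]

/-- The inclusion of the Galois groups. -/
noncomputable def gres (K L : Type) [Field K] [Field L] [Algebra K L] [Algebra K Qbar] [Algebra L Qbar]
    [IsScalarTower K L Qbar] : (Qbar ≃ₐ[L] Qbar) →* (Qbar ≃ₐ[K] Qbar) where
  toFun σ := σ.restrictScalars K
  map_one' := rfl
  map_mul' _ _ := rfl

theorem gres_apply (σ : Qbar ≃ₐ[L] Qbar) (x : Qbar) : gres K L σ x = σ x := rfl

/-- (D1) The inclusion of the Galois groups is continuous. -/
theorem pgd_cont : Continuous (gres K L) := by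
  apply continuous_of_continuousAt_one
  intro U hU
  rw [map_one] at hU
  rw [Filter.mem_map]
  obtain ⟨E, hE, hEU⟩ := (krullTopology_mem_nhds_one_iff _ _ _).1 hU
  obtain ⟨s, hs⟩ := (Module.finite_def.mp hE : (⊤ : Submodule K E).FG)
  let t : Set Qbar := (fun x : E => (x : Qbar)) '' (s : Set E)
  have ht : t.Finite := s.finite_toSet.image _
  have hft : Finite t := ht
  have hfd : FiniteDimensional L (IntermediateField.adjoin L t) := by
    refine IntermediateField.finiteDimensional_adjoin ?_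
    rintro z ⟨x, -, rfl⟩
    have h1 : IsIntegral K (x : Qbar) := by
      have h2 : IsIntegral K x := Algebra.IsIntegral.isIntegral x
      exact h2.map (E.val)
    exact h1.tower_top
  refine (krullTopology_mem_nhds_one_iff _ _ _).2 ⟨IntermediateField.adjoin L t, hfd, ?_⟩
  intro σ hσ
  apply hEU
  refine (IntermediateField.mem_fixingSubgroup_iff _ _).2 ?_
  have hσ' := (IntermediateField.mem_fixingSubgroup_iff _ _).1 hσ
  intro x hx
  have h3 : (⟨x, hx⟩ : E) ∈ Submodule.span K (s : Set E) := by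
    rw [hs]
    exact Submodule.mem_top
  have h4 : ∀ y : E, y ∈ Submodule.span K (s : Set E) → gres K L σ (y : Qbar) = (y : Qbar) := by
    intro y hy
    induction hy using Submodule.span_induction with
    | mem z hz =>
      rw [gres_apply]
      exact hσ' z (IntermediateField.subset_adjoin L t ⟨z, hz, rfl⟩)
    | zero =>
      rw [ZeroMemClass.coe_zero, map_zero]
    | add a b _ _ ha hb =>
      rw [AddMemClass.coe_add, map_add, ha, hb]
    | smul c a _ ha =>
      have h5 : ((c • a : E) : Qbar) = c • (a : Qbar) := rfl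
      rw [h5, Algebra.smul_def, map_mul, ha, AlgEquiv.commutes]
  exact h4 ⟨x, hx⟩ h3

/-- (D2) A property of the Frobenius elements over `K` holds for those over `L`. -/
theorem pgd_bot (P : (Qbar ≃ₐ[K] Qbar) → ∀ (F : Type) [Field F] [Fintype F], (𝓞 K →+* F) → Prop)
    (h : AtFrobenius P) : AtFrobenius fun (σ : Qbar ≃ₐ[L] Qbar) F _ _ (φ : 𝓞 L →+* F) =>
      P (gres K L σ) F (φ.comp (algebraMap (𝓞 K) (𝓞 L))) := by
  obtain ⟨B, hB⟩ := h
  refine ⟨B, ?_⟩
  intro q hq hqB Q hQ hqQ F _ _ φ hφ σ hσ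
  refine hB q hq hqB Q hQ hqQ F _ ?_ (gres K L σ) ?_
  · intro x
    rw [RingHom.comp_apply, hφ]
    have h1 : algebraMap (𝓞 L) (𝓞 Qbar) (algebraMap (𝓞 K) (𝓞 L) x) =
        algebraMap (𝓞 K) (𝓞 Qbar) x := by
      apply RingOfIntegers.coe_injective
      show algebraMap L Qbar (algebraMap K L (x : K)) = algebraMap K Qbar (x : K)
      rw [← IsScalarTower.algebraMap_apply]
    rw [h1]
  · exact hσ

/-- (D4) An element with a power that fixes `L`. -/
theorem pgd_lift {p : ℕ} (g : Qbar ≃ₐ[K] Qbar) (hg : FixesRoots p g) (s : ℕ)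
    (hgL : ∀ x : L, (g ^ p ^ s) (algebraMap L Qbar x) = algebraMap L Qbar x) :
    ∃ g₁ : Qbar ≃ₐ[L] Qbar, gres K L g₁ = g ^ p ^ s ∧ FixesRoots p g₁ := by
  refine ⟨AlgEquiv.ofRingEquiv (f := (g ^ p ^ s).toRingEquiv) hgL, ?_, ?_⟩
  · apply AlgEquiv.ext
    intro x
    rfl
  · intro n z hz
    show (g ^ p ^ s) z = z
    have h1 : ∀ i : ℕ, (g ^ i) z = z := by
      intro i
      induction i with
      | zero => rfl
      | succ i ih => rw [pow_succ, AlgEquiv.mul_apply, hg n z hz, ih]
    exact h1 _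

end down

section close

variable {p : ℕ} [hp : Fact p.Prime]

theorem pgd_charpoly {C : Type} [Field C] [IsAlgClosed C] {d : ℕ} (A : Matrix (Fin d) (Fin d) C)
    {β : Fin d → C} (hβ : Finset.univ.val.map β = A.charpoly.roots) :
    A.charpoly = ∏ j, (X - Polynomial.C (β j)) := by
  have h1 := (IsAlgClosed.splits A.charpoly).eq_prod_roots_of_monic A.charpoly_monic
  rw [h1, ← hβ, Multiset.map_map]
  rfl

/-- The eigenvalues of a power. -/
theorem pgd_roots_pow {C : Type} [Field C] [CharZero C] [IsAlgClosed C] {d : ℕ}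
    (A : Matrix (Fin d) (Fin d) C) {β : Fin d → C}
    (hβ : Finset.univ.val.map β = A.charpoly.roots) (k : ℕ) :
    Finset.univ.val.map (fun i => β i ^ k) = (A ^ k).charpoly.roots := by
  obtain ⟨γ, hγ⟩ := effn_family (A ^ k)
  have h1 : ∏ j, (X - Polynomial.C (β j ^ k)) = ∏ j, (X - Polynomial.C (γ j)) := by
    rw [← npoly_family (fun j => β j ^ k) (fun l => ((A ^ k) ^ l).trace) (fun l _ => by
        rw [← pow_mul, effn_trace A hβ]
        apply Finset.sum_congr rfl
        intro i _
        rw [pow_mul]),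
      ← npoly_family γ (fun l => ((A ^ k) ^ l).trace) (fun l _ => effn_trace _ hγ l)]
  rw [← hγ]
  have h2 := congrArg Polynomial.roots h1
  rw [roots_prod _ _ (monic_prod_of_monic _ _ fun i _ => monic_X_sub_C _).ne_zero,
    roots_prod _ _ (monic_prod_of_monic _ _ fun i _ => monic_X_sub_C _).ne_zero] at h2
  simp only [roots_X_sub_C] at h2
  rw [Multiset.bind_singleton, Multiset.bind_singleton] at h2
  exact h2

open Classical in
/-- The number of close eigenvalues, by a family of the eigenvalues. -/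
theorem pgd_close_family {d : ℕ} (N : Matrix (Fin d) (Fin d) ℂ_[p]) {β : Fin d → ℂ_[p]}
    (hβ : Finset.univ.val.map β = N.charpoly.roots) (D : ℕ) :
    closeEig N D = (Finset.univ.filter fun i =>
      ∃ n : ℕ, 0 < n ∧ n.totient ≤ D ∧ ‖β i ^ n - 1‖ < 1).card := by
  unfold closeEig
  rw [← hβ, Multiset.filter_map, Multiset.card_map]
  rfl

/-- If a power of exponent `p ^ s` of an element is congruent to `1` then the element is. -/
theorem pgd_near {x : ℂ_[p]} {s n : ℕ} (hn : 0 < n) (h : ‖(x ^ p ^ s) ^ n - 1‖ < 1) :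
    ‖x ^ n - 1‖ < 1 := by
  have hps : 0 < p ^ s := pow_pos hp.out.pos s
  have hx1 : ‖(x ^ p ^ s) ^ n‖ = 1 := by
    have h1 : (x ^ p ^ s) ^ n = ((x ^ p ^ s) ^ n - 1) + 1 := by ring
    rw [h1, IsUltrametricDist.norm_add_eq_max_of_norm_ne_norm (by rw [norm_one]; exact h.ne),
      norm_one, max_eq_right h.le]
  have hx : ‖x‖ = 1 := by
    rw [← pow_mul, norm_pow] at hx1
    exact (pow_eq_one_iff_of_nonneg (norm_nonneg x) (Nat.mul_pos hps hn).ne').mp hx1
  obtain ⟨red, hred, -⟩ := res_exists p (AlgebraicClosure (ZMod p))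
  let y : nv ℂ_[p] := ⟨x, hx.le⟩
  have h2 : red ((y ^ p ^ s) ^ n - 1) = 0 := hred _ h
  have h3 : (red (y ^ n - 1)) ^ p ^ s = 0 := by
    have h4 : red ((y ^ p ^ s) ^ n - 1) = (red y ^ n) ^ p ^ s - 1 := by
      rw [map_sub, map_one, map_pow, map_pow, ← pow_mul, ← pow_mul, mul_comm]
    rw [map_sub, map_one, map_pow, sub_pow_char_pow, one_pow, ← h4]
    exact h2
  have h5 : red (y ^ n - 1) = 0 := (pow_eq_zero_iff hps.ne').mp h3
  exact (red_zero_iff red hred _).mp h5

/-- (D3) The number of close eigenvalues does not increase if we take a power of exponent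
`p ^ s`. -/
theorem pgd_close {d : ℕ} (N : Matrix (Fin d) (Fin d) ℂ_[p]) (s D : ℕ) :
    closeEig (N ^ p ^ s) D ≤ closeEig N D := by
  classical
  obtain ⟨β, hβ⟩ := effn_family N
  rw [pgd_close_family N hβ, pgd_close_family (N ^ p ^ s) (pgd_roots_pow N hβ _)]
  apply Finset.card_le_card
  intro i hi
  rw [Finset.mem_filter] at hi ⊢
  obtain ⟨-, n, hn, hnD, h⟩ := hi
  exact ⟨Finset.mem_univ _, n, hn, hnD, pgd_near hn h⟩

end close

end Pool.Agent.PG
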