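import Pool.Agent.Lib_helper99.PG.Down
import Pool.Agent.Lib_helper61.PG.Defs

/-!
# The cyclotomic eigenvalues of a power of exponent `p ^ a`
-/

set_option autoImplicit false

namespace Pool.Agent.PG

open NumberField Topology Polynomial
open Pool.Agent.TT Pool.Agent.TB Pool.Agent.TF Pool.Agent.RF Pool.Agent.TBL Pool.Agent.TU
open Pool.Agent.KT Pool.Agent.KP Pool.Agent.EFF

section pow2

variable {p : ℕ} [hp : Fact p.Prime]

open Classical in
/-- The number of cyclotomic eigenvalues, by a family of the eigenvalues. -/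
theorem cycEig_family {d : ℕ} (N : Matrix (Fin d) (Fin d) ℂ_[p]) {β : Fin d → ℂ_[p]}
    (hβ : Finset.univ.val.map β = N.charpoly.roots) (m : ℕ) :
    cycEig N m = (Finset.univ.filter fun i => ∃ M : ℕ, 0 < M ∧ ‖β i ^ M - 1‖ < 1 ∧
      ∀ k : ℕ, k.Coprime M → k % m = 1 % m → ∃ i' : Fin d, ‖β i ^ k - β i'‖ < 1).card := by
  unfold cycEig
  rw [← hβ, Multiset.filter_map, Multiset.card_map, Finset.card_def, Finset.filter_val]
  congr 1
  apply Multiset.filter_congr
  intro i _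
  constructor
  · rintro ⟨M, hM, h1, h2⟩
    refine ⟨M, hM, h1, fun k hk hkm => ?_⟩
    obtain ⟨y', hy', h3⟩ := h2 k hk hkm
    rw [Multiset.mem_map] at hy'
    obtain ⟨i', -, rfl⟩ := hy'
    exact ⟨i', h3⟩
  · rintro ⟨M, hM, h1, h2⟩
    refine ⟨M, hM, h1, fun k hk hkm => ?_⟩
    obtain ⟨i', h3⟩ := h2 k hk hkm
    exact ⟨β i', Multiset.mem_map.mpr ⟨i', Finset.mem_univ_val i', rfl⟩, h3⟩

/-- If the powers of exponent `p ^ a` of two elements are congruent and one of them is a unit then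
the elements are congruent. -/
theorem pow2_near {x y : ℂ_[p]} (hx : ‖x‖ = 1) {a : ℕ} (h : ‖x ^ p ^ a - y ^ p ^ a‖ < 1) :
    ‖x - y‖ < 1 := by
  have hps : 0 < p ^ a := pow_pos hp.out.pos a
  have hy1 : ‖y ^ p ^ a‖ = 1 := by
    have h1 : y ^ p ^ a = x ^ p ^ a - (x ^ p ^ a - y ^ p ^ a) := by ring
    have h2 : ‖x ^ p ^ a‖ = 1 := by rw [norm_pow, hx, one_pow]
    rw [h1, sub_eq_add_neg, IsUltrametricDist.norm_add_eq_max_of_norm_ne_norm (by
        rw [norm_neg, h2]; exact h.ne'), norm_neg, h2, max_eq_left h.le]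
  have hy : ‖y‖ = 1 := by
    rw [norm_pow] at hy1
    exact (pow_eq_one_iff_of_nonneg (norm_nonneg y) hps.ne').mp hy1
  obtain ⟨red, hred, -⟩ := res_exists p (AlgebraicClosure (ZMod p))
  let X : nv ℂ_[p] := ⟨x, hx.le⟩
  let Y : nv ℂ_[p] := ⟨y, hy.le⟩
  have h2 : red (X ^ p ^ a - Y ^ p ^ a) = 0 := hred _ h
  have h3 : (red (X - Y)) ^ p ^ a = 0 := by
    rw [map_sub, sub_pow_char_pow, ← map_pow, ← map_pow, ← map_sub]
    exact h2
  have h5 : red (X - Y) = 0 := (pow_eq_zero_iff hps.ne').mp h3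
  exact (red_zero_iff red hred _).mp h5

/-- BLOCK POW2. The number of cyclotomic eigenvalues does not increase if we take a power of
exponent `p ^ a`. -/
theorem block_POW2 {d : ℕ} (N : Matrix (Fin d) (Fin d) ℂ_[p]) (m a : ℕ) :
    cycEig (N ^ p ^ a) m ≤ cycEig N m := by
  classical
  obtain ⟨β, hβ⟩ := effn_family N
  rw [cycEig_family N hβ, cycEig_family (N ^ p ^ a) (pgd_roots_pow N hβ _)]
  apply Finset.card_le_card
  intro i hi
  rw [Finset.mem_filter] at hi ⊢
  obtain ⟨-, M, hM, h, hk⟩ := hi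
  have h1 : ‖β i ^ M - 1‖ < 1 := pgd_near hM h
  have hx : ‖β i‖ = 1 := by
    have h2 : ‖β i ^ M‖ = 1 := by
      have h3 : β i ^ M = (β i ^ M - 1) + 1 := by ring
      rw [h3, IsUltrametricDist.norm_add_eq_max_of_norm_ne_norm (by rw [norm_one]; exact h1.ne),
        norm_one, max_eq_right h1.le]
    rw [norm_pow] at h2
    exact (pow_eq_one_iff_of_nonneg (norm_nonneg _) hM.ne').mp h2
  refine ⟨Finset.mem_univ _, M, hM, h1, fun k hkM hkm => ?_⟩
  obtain ⟨i', h3⟩ := hk k hkM hkm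
  refine ⟨i', pow2_near (a := a) (by rw [norm_pow, hx, one_pow]) ?_⟩
  rw [← pow_mul, mul_comm k, pow_mul]
  exact h3

end pow2

end Pool.Agent.PG
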